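import Mathlib

/-!
# A polyhedral Banach space is not isomorphic to a Hilbert space

Helper file for MP_8cd1d0_an.  The proof: in a separable polyhedral Banach space the points near which
the norm coincides with a linear functional are dense; countably many functionals occur, and they form
a boundary; in a Hilbert space with an equivalent norm no countable boundary exists.
-/

set_option autoImplicit false

open Set Filter Topology Metric

namespace Pool.Agent.R277.Poly

variable {X : Type*} [NormedAddCommGroup X] [NormedSpace ℝ X]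

/-- finite-dimensional sections of the unit ball are polytopes -/
def Polyhedral (X : Type*) [NormedAddCommGroup X] [NormedSpace ℝ X] : Prop :=
  ∀ F : Submodule ℝ X, FiniteDimensional ℝ F →
    ∃ s : Set F, s.Finite ∧ closedBall (0 : F) 1 = convexHull ℝ s

/-- points near which the norm is linear, with the functional -/
def LinAt (φ : StrongDual ℝ X) (z : X) : Prop := ∀ᶠ w in 𝓝 z, ‖w‖ = φ w

lemma le_norm_of {φ : StrongDual ℝ X} (h : ‖φ‖ ≤ 1) (x : X) : φ x ≤ ‖x‖ := by
  have h1 := φ.le_of_opNorm_le h x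
  rw [one_mul] at h1
  exact (le_abs_self _).trans h1

/-- the norm is affine for a short time on every ray -/
lemma affine_germ (hX : Polyhedral X) (x y : X) :
    ∃ φ : StrongDual ℝ X, ‖φ‖ ≤ 1 ∧ ∃ t : ℝ, 0 < t ∧ ∀ s ∈ Icc (0:ℝ) t, ‖x + s • y‖ = φ (x + s • y) := by
  classical
  by_cases h0 : x = 0 ∧ y = 0
  · obtain ⟨rfl, rfl⟩ := h0
    exact ⟨0, by simp, 1, one_pos, fun s _ => by simp⟩
  let F : Submodule ℝ X := Submodule.span ℝ {x, y}
  have hF : FiniteDimensional ℝ F := FiniteDimensional.span_of_finite ℝ (by simp)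
  obtain ⟨S, hS, hball⟩ := hX F hF
  have hxF : x ∈ F := Submodule.subset_span (by simp)
  have hyF : y ∈ F := Submodule.subset_span (by simp)
  let z : ℕ → X := fun n => x + (1 / ((n:ℝ) + 1)) • y
  have hzF : ∀ n, z n ∈ F := fun n => F.add_mem hxF (F.smul_mem _ hyF)
  -- weights
  let Sf := hS.toFinset
  have key : ∀ n, ∃ w : F → ℝ, (∀ p ∈ Sf, 0 ≤ w p) ∧ ∑ p ∈ Sf, w p = 1 ∧
      z n = ‖z n‖ • ∑ p ∈ Sf, w p • (p : X) := by
    intro n
    let b : F := ‖z n‖⁻¹ • ⟨z n, hzF n⟩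
    have hb : b ∈ closedBall (0 : F) 1 := by
      rw [mem_closedBall_zero_iff, norm_smul, norm_inv, norm_norm]
      change ‖z n‖⁻¹ * ‖z n‖ ≤ 1
      by_cases h : ‖z n‖ = 0
      · rw [h]; simp
      · rw [inv_mul_cancel₀ h]
    rw [hball, ← hS.coe_toFinset, Finset.mem_convexHull'] at hb
    obtain ⟨w, hw0, hw1, hw⟩ := hb
    refine ⟨w, hw0, hw1, ?_⟩
    have h1 : ((∑ p ∈ Sf, w p • p : F) : X) = ∑ p ∈ Sf, w p • (p : X) := by
      simp
    rw [← h1, hw]
    change z n = ‖z n‖ • (‖z n‖⁻¹ • z n)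
    by_cases h : ‖z n‖ = 0
    · rw [norm_eq_zero] at h; rw [h]; simp
    · rw [smul_smul, mul_inv_cancel₀ h, one_smul]
  choose w hw0 hw1 hw using key
  obtain ⟨J, hJ⟩ : ∃ J : Finset F, {n : ℕ | Sf.filter (fun p => w n p ≠ 0) = J}.Infinite := by
    have : Finite (Sf.powerset : Finset (Finset F)) := inferInstance
    by_contra hcon
    push Not at hcon
    have hfin : (⋃ J ∈ Sf.powerset, {n : ℕ | Sf.filter (fun p => w n p ≠ 0) = J}).Finite := by
      apply Set.Finite.biUnion (Finset.finite_toSet _)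
      intro J _
      exact hcon J
    have huniv : (⋃ J ∈ Sf.powerset, {n : ℕ | Sf.filter (fun p => w n p ≠ 0) = J}) = univ := by
      ext n
      simp only [mem_iUnion, mem_ofPred_eq, mem_univ, iff_true]
      exact ⟨_, Finset.mem_powerset.2 (Finset.filter_subset _ _), rfl⟩
    rw [huniv] at hfin
    exact Set.infinite_univ hfin
  set N := {n : ℕ | Sf.filter (fun p => w n p ≠ 0) = J} with hN
  obtain ⟨n₁, hn₁, hz₁⟩ : ∃ n ∈ N, z n ≠ 0 := by
    by_contra hcon
    push Not at hcon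
    obtain ⟨a, ha⟩ := hJ.nonempty
    obtain ⟨b, hb, hab⟩ := hJ.exists_gt a
    have h1 := hcon a ha
    have h2 := hcon b hb
    have h3 : (1 / ((a:ℝ) + 1) - 1 / ((b:ℝ) + 1)) • y = 0 := by
      rw [sub_smul]
      have : (1 / ((a:ℝ) + 1)) • y - (1 / ((b:ℝ) + 1)) • y = z a - z b := by
        simp only [z]; abel
      rw [this, h1, h2, sub_zero]
    have h4 : (1 / ((a:ℝ) + 1) - 1 / ((b:ℝ) + 1)) ≠ 0 := by
      have : (1 / ((b:ℝ) + 1)) < 1 / ((a:ℝ) + 1) := by
        apply one_div_lt_one_div_of_lt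
        · positivity
        · have : (a:ℝ) < b := by exact_mod_cast hab
          linarith
      exact sub_ne_zero.2 this.ne'
    have hy : y = 0 := by
      rcases smul_eq_zero.1 h3 with h | h
      · exact absurd h h4
      · exact h
    apply h0
    refine ⟨?_, hy⟩
    simp only [z, hy, smul_zero, add_zero] at h1
    exact h1
  obtain ⟨φ, hφ, hφz⟩ := exists_dual_vector'' ℝ (z n₁)
  have hφz' : φ (z n₁) = ‖z n₁‖ := by simpa using hφz
  have hle := le_norm_of hφ
  -- φ = 1 on J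
  have hp1 : ∀ p ∈ Sf, φ (p : X) ≤ 1 := by
    intro p hp
    have h1 : p ∈ closedBall (0 : F) 1 := by
      rw [hball]
      exact subset_convexHull ℝ S (hS.mem_toFinset.1 hp)
    rw [mem_closedBall_zero_iff] at h1
    exact (hle _).trans h1
  have hJ1 : ∀ p ∈ J, φ (p : X) = 1 := by
    intro p hp
    have hn₁' : Sf.filter (fun p => w n₁ p ≠ 0) = J := hn₁
    rw [← hn₁', Finset.mem_filter] at hp
    obtain ⟨hpS, hpw⟩ := hp
    have h1 : ∑ q ∈ Sf, w n₁ q * (1 - φ (q : X)) = 0 := by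
      have h2 : φ (z n₁) = ‖z n₁‖ * ∑ q ∈ Sf, w n₁ q * φ (q : X) := by
        conv_lhs => rw [hw n₁]
        rw [map_smul, map_sum, smul_eq_mul]
        congr 1
        exact Finset.sum_congr rfl fun q _ => by rw [map_smul, smul_eq_mul]
      rw [hφz'] at h2
      have h3 : ∑ q ∈ Sf, w n₁ q * φ (q : X) = 1 := by
        have h4 : ‖z n₁‖ ≠ 0 := norm_ne_zero_iff.2 hz₁
        have h5 : ‖z n₁‖ * (∑ q ∈ Sf, w n₁ q * φ (q : X)) = ‖z n₁‖ * 1 := by rw [← h2, mul_one]
        exact mul_left_cancel₀ h4 h5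
      simp only [mul_sub, mul_one, Finset.sum_sub_distrib]
      rw [hw1, h3, sub_self]
    have h2 := (Finset.sum_eq_zero_iff_of_nonneg (fun q hq =>
      mul_nonneg (hw0 n₁ q hq) (sub_nonneg.2 (hp1 q hq)))).1 h1 p hpS
    rcases mul_eq_zero.1 h2 with h | h
    · exact absurd h hpw
    · linarith
  have hn : ∀ n ∈ N, φ (z n) = ‖z n‖ := by
    intro n hn
    have hn' : Sf.filter (fun p => w n p ≠ 0) = J := hn
    conv_lhs => rw [hw n]
    rw [map_smul, map_sum, smul_eq_mul]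
    have h1 : ∑ q ∈ Sf, φ (w n q • (q : X)) = 1 := by
      rw [← hw1 n]
      apply Finset.sum_congr rfl
      intro q hq
      rw [map_smul, smul_eq_mul]
      by_cases h : w n q = 0
      · rw [h, zero_mul]
      · rw [hJ1 q (by rw [← hn', Finset.mem_filter]; exact ⟨hq, h⟩), mul_one]
    rw [h1, mul_one]
  have hlim : Tendsto z atTop (𝓝 x) := by
    have h1 : Tendsto (fun n : ℕ => (1 / ((n:ℝ) + 1)) • y) atTop (𝓝 ((0:ℝ) • y)) :=
      tendsto_one_div_add_atTop_nhds_zero_nat.smul_const y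
    rw [zero_smul] at h1
    have h2 := h1.const_add x
    rwa [add_zero] at h2
  have hx : φ x = ‖x‖ := by
    have h1 : Tendsto (fun n => φ (z n) - ‖z n‖) atTop (𝓝 (φ x - ‖x‖)) :=
      ((φ.continuous.tendsto x).comp hlim).sub ((continuous_norm.tendsto x).comp hlim)
    have h2 : ∃ᶠ n in atTop, φ (z n) - ‖z n‖ = 0 := by
      have := Nat.frequently_atTop_iff_infinite.2 hJ
      exact this.mono fun n hn' => by rw [hn n hn', sub_self]
    by_contra hcon
    have h3 : φ x - ‖x‖ ≠ 0 := sub_ne_zero.2 hcon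
    have h4 := h1.eventually_ne h3
    obtain ⟨n, hn1, hn2⟩ := (h2.and_eventually h4).exists
    exact hn2 hn1
  refine ⟨φ, hφ, 1 / ((n₁:ℝ) + 1), by positivity, ?_⟩
  intro s hs
  apply le_antisymm _ (hle _)
  set t := 1 / ((n₁:ℝ) + 1) with ht
  have htp : 0 < t := by positivity
  have h1 : x + s • y = (1 - s / t) • x + (s / t) • z n₁ := by
    simp only [z, ← ht]
    rw [smul_add, smul_smul, div_mul_cancel₀ _ htp.ne', sub_smul, one_smul]
    abel
  have h2 : 0 ≤ s / t := div_nonneg hs.1 htp.le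
  have h3 : 0 ≤ 1 - s / t := by
    rw [sub_nonneg, div_le_one htp]
    exact hs.2
  calc ‖x + s • y‖ ≤ (1 - s / t) * ‖x‖ + (s / t) * ‖z n₁‖ := by
        rw [h1]
        refine (norm_add_le _ _).trans ?_
        rw [norm_smul, norm_smul, Real.norm_of_nonneg h2, Real.norm_of_nonneg h3]
    _ = φ (x + s • y) := by
        rw [h1, map_add, map_smul, map_smul, hx, hφz', smul_eq_mul, smul_eq_mul]


/-- second differences of a norm grow at least linearly -/
lemma second_diff_mono (z v : X) {s t : ℝ} (hs : 0 < s) (hst : s ≤ t) :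
    (‖z + s • v‖ + ‖z - s • v‖ - 2 * ‖z‖) / s ≤ (‖z + t • v‖ + ‖z - t • v‖ - 2 * ‖z‖) / t := by
  have ht : 0 < t := hs.trans_le hst
  have h0 : 0 ≤ s / t := by positivity
  have h1 : 0 ≤ 1 - s / t := by rw [sub_nonneg, div_le_one ht]; exact hst
  have e1 : z + s • v = (1 - s / t) • z + (s / t) • (z + t • v) := by
    rw [smul_add, smul_smul, div_mul_cancel₀ _ ht.ne', sub_smul, one_smul]; abel
  have e2 : z - s • v = (1 - s / t) • z + (s / t) • (z - t • v) := by
    rw [smul_sub, smul_smul, div_mul_cancel₀ _ ht.ne', sub_smul, one_smul]; abel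
  have i1 : ‖z + s • v‖ ≤ (1 - s / t) * ‖z‖ + (s / t) * ‖z + t • v‖ := by
    conv_lhs => rw [e1]
    refine (norm_add_le _ _).trans ?_
    rw [norm_smul, norm_smul, Real.norm_of_nonneg h0, Real.norm_of_nonneg h1]
  have i2 : ‖z - s • v‖ ≤ (1 - s / t) * ‖z‖ + (s / t) * ‖z - t • v‖ := by
    conv_lhs => rw [e2]
    refine (norm_add_le _ _).trans ?_
    rw [norm_smul, norm_smul, Real.norm_of_nonneg h0, Real.norm_of_nonneg h1]
  rw [div_le_iff₀ hs]
  have e3 : (‖z + t • v‖ + ‖z - t • v‖ - 2 * ‖z‖) / t * s =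
      (s / t) * (‖z + t • v‖ + ‖z - t • v‖ - 2 * ‖z‖) := by ring
  rw [e3]
  nlinarith

/-- the norm is Gateaux differentiable at `z` -/
def Smooth (z : X) : Prop :=
  ∀ v : X, ∀ ε : ℝ, 0 < ε → ∃ t : ℝ, 0 < t ∧ ‖z + t • v‖ + ‖z - t • v‖ - 2 * ‖z‖ < ε * t

lemma smooth_line (z v : X) (r : ℝ) (hr : 0 < r) (ε : ℝ) (hε : 0 < ε) :
    ∃ s ∈ Ioo (0:ℝ) r, ∃ t : ℝ, 0 < t ∧
      ‖z + s • v + t • v‖ + ‖z + s • v - t • v‖ - 2 * ‖z + s • v‖ < ε * t := by
  let g : ℝ → ℝ := fun s => ‖z + s • v‖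
  have hg : LipschitzWith (‖v‖₊) g := by
    apply LipschitzWith.of_dist_le_mul
    intro a b
    rw [Real.dist_eq, Real.dist_eq]
    refine (abs_norm_sub_norm_le _ _).trans ?_
    have : z + a • v - (z + b • v) = (a - b) • v := by rw [sub_smul]; abel
    rw [this, norm_smul, mul_comm, Real.norm_eq_abs]
    rfl
  have hae := hg.ae_differentiableAt_real
  obtain ⟨s, hs, hd⟩ : ∃ s ∈ Ioo (0:ℝ) r, DifferentiableAt ℝ g s := by
    by_contra hcon
    push Not at hcon
    have h1 : MeasureTheory.volume (Ioo (0:ℝ) r) = 0 := by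
      apply MeasureTheory.measure_mono_null _ (MeasureTheory.ae_iff.1 hae)
      intro s hs
      exact hcon s hs
    rw [Real.volume_Ioo] at h1
    simp at h1
    linarith
  refine ⟨s, hs, ?_⟩
  have hd' := hd.hasDerivAt
  set d := deriv g s
  have h1 : Tendsto (fun t : ℝ => t⁻¹ • (g (s + t) - g s)) (𝓝[≠] 0) (𝓝 d) :=
    hasDerivAt_iff_tendsto_slope_zero.1 hd'
  have h2 : Tendsto (fun t : ℝ => t⁻¹ • (g (s + t) - g s)) (𝓝[>] 0) (𝓝 d) :=
    h1.mono_left (nhdsWithin_mono _ (fun x hx => ne_of_gt hx))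
  have h3 : Tendsto (fun t : ℝ => (-t)⁻¹ • (g (s + -t) - g s)) (𝓝[>] 0) (𝓝 d) := by
    have hneg : Tendsto (fun t : ℝ => -t) (𝓝[>] 0) (𝓝[≠] 0) := by
      apply tendsto_nhdsWithin_iff.2
      refine ⟨?_, ?_⟩
      · have : Tendsto (fun t : ℝ => -t) (𝓝 0) (𝓝 (-0)) := (continuous_neg.tendsto 0)
        rw [neg_zero] at this
        exact this.mono_left nhdsWithin_le_nhds
      · filter_upwards [self_mem_nhdsWithin] with t ht
        have : (0:ℝ) < t := ht
        simp only [mem_compl_iff, mem_singleton_iff]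
        linarith
    exact h1.comp hneg
  have h4 := h2.sub h3
  rw [sub_self] at h4
  have h5 : ∀ᶠ t : ℝ in 𝓝[>] 0,
      t⁻¹ • (g (s + t) - g s) - (-t)⁻¹ • (g (s + -t) - g s) < ε := h4.eventually_lt_const hε
  obtain ⟨t, ht1, ht2⟩ := (h5.and self_mem_nhdsWithin).exists
  have htp : (0:ℝ) < t := ht2
  refine ⟨t, htp, ?_⟩
  have e1 : z + s • v + t • v = z + (s + t) • v := by rw [add_smul]; abel
  have e2 : z + s • v - t • v = z + (s + -t) • v := by rw [add_smul, neg_smul]; abel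
  rw [e1, e2]
  change g (s + t) + g (s + -t) - 2 * g s < ε * t
  have h6 : t⁻¹ • (g (s + t) - g s) - (-t)⁻¹ • (g (s + -t) - g s) =
      (g (s + t) + g (s + -t) - 2 * g s) / t := by
    rw [smul_eq_mul, smul_eq_mul, inv_neg]
    field_simp
    ring
  rw [h6, div_lt_iff₀ htp] at ht1
  exact ht1

/-- points of Gateaux differentiability are dense (Mazur) -/
lemma dense_smooth [CompleteSpace X] [TopologicalSpace.SeparableSpace X] :
    Dense {z : X | Smooth z} := by
  classical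
  obtain ⟨D, hDc, hDd⟩ := TopologicalSpace.exists_countable_dense X
  have hDc' : Countable D := hDc
  let G : D × ℕ → Set X := fun p =>
    ⋃ t ∈ Ioi (0:ℝ), {z : X | ‖z + t • (p.1 : X)‖ + ‖z - t • (p.1 : X)‖ - 2 * ‖z‖ < (1 / ((p.2:ℝ) + 1)) * t}
  have hGo : ∀ p, IsOpen (G p) := by
    intro p
    refine isOpen_biUnion fun t _ => ?_
    apply isOpen_lt
    · fun_prop
    · fun_prop
  have hGd : ∀ p, Dense (G p) := by
    intro p
    rw [Metric.dense_iff]
    intro z r hr
    obtain ⟨s, hs, t, ht, h⟩ := smooth_line z (p.1 : X) (r / (‖(p.1 : X)‖ + 1)) (by positivity)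
      (1 / ((p.2:ℝ) + 1)) (by positivity)
    refine ⟨z + s • (p.1 : X), ?_, ?_⟩
    · rw [mem_ball, dist_eq_norm]
      have e : z + s • (p.1 : X) - z = s • (p.1 : X) := by abel
      rw [e, norm_smul, Real.norm_of_nonneg hs.1.le]
      have h1 : s * (‖(p.1 : X)‖ + 1) < r := by
        have := hs.2
        rwa [lt_div_iff₀ (by positivity)] at this
      nlinarith [norm_nonneg (p.1 : X), hs.1]
    · simp only [G, mem_iUnion]
      exact ⟨t, ht, h⟩
  have hdense := dense_iInter_of_isOpen hGo hGd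
  refine hdense.mono ?_
  intro z hz v ε hε
  rw [mem_iInter] at hz
  -- approximate v
  obtain ⟨w, hw, hwD⟩ := Metric.dense_iff.1 hDd v (ε / 4) (by positivity)
  obtain ⟨n, hn⟩ := exists_nat_one_div_lt (show 0 < ε / 2 by positivity)
  have h1 := hz (⟨w, hwD⟩, n)
  simp only [G, mem_iUnion] at h1
  obtain ⟨t, ht, h2⟩ := h1
  have htp : (0:ℝ) < t := ht
  refine ⟨t, htp, ?_⟩
  have h3 : ‖z + t • w‖ + ‖z - t • w‖ - 2 * ‖z‖ < 1 / ((n:ℝ) + 1) * t := h2
  have h4 : ‖v - w‖ < ε / 4 := by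
    rw [mem_ball, dist_comm, dist_eq_norm] at hw
    exact hw
  have h5 : ‖z + t • v‖ ≤ ‖z + t • w‖ + t * ‖v - w‖ := by
    have : z + t • v = (z + t • w) + t • (v - w) := by rw [smul_sub]; abel
    rw [this]
    refine (norm_add_le _ _).trans ?_
    rw [norm_smul, Real.norm_of_nonneg htp.le]
  have h6 : ‖z - t • v‖ ≤ ‖z - t • w‖ + t * ‖v - w‖ := by
    have : z - t • v = (z - t • w) - t • (v - w) := by rw [smul_sub]; abel
    rw [this]
    refine (norm_sub_le _ _).trans ?_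
    rw [norm_smul, Real.norm_of_nonneg htp.le]
  have h7 : 1 / ((n:ℝ) + 1) * t < ε / 2 * t := by
    exact mul_lt_mul_of_pos_right hn htp
  nlinarith

/-- at a smooth point of a polyhedral space the norm is locally linear -/
lemma linAt_of_smooth [CompleteSpace X] (hX : Polyhedral X) {z : X} (hz : Smooth z) :
    ∃ φ : StrongDual ℝ X, ‖φ‖ ≤ 1 ∧ LinAt φ z := by
  obtain ⟨φ, hφ, hφz⟩ := exists_dual_vector'' ℝ z
  have hφz' : φ z = ‖z‖ := by simpa using hφz
  have hle := le_norm_of hφ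
  refine ⟨φ, hφ, ?_⟩
  -- the norm is linear on a short segment in every direction
  have key : ∀ v : X, ∃ t : ℝ, 0 < t ∧ ‖z + t • v‖ = φ (z + t • v) := by
    intro v
    obtain ⟨φ₁, h1, t₁, ht₁, e1⟩ := affine_germ hX z v
    obtain ⟨φ₂, h2, t₂, ht₂, e2⟩ := affine_germ hX z (-v)
    have hz1 : φ₁ z = ‖z‖ := by
      have := e1 0 ⟨le_rfl, ht₁.le⟩
      simpa using this.symm
    have hz2 : φ₂ z = ‖z‖ := by
      have := e2 0 ⟨le_rfl, ht₂.le⟩
      simpa using this.symm
    have h12 : φ₁ v ≤ φ₂ v := by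
      apply le_of_forall_pos_le_add
      intro ε hε
      obtain ⟨t, ht, hlt⟩ := hz v ε hε
      set s := min t (min t₁ t₂) with hs
      have hs0 : 0 < s := lt_min ht (lt_min ht₁ ht₂)
      have hs1 : s ≤ t₁ := (min_le_right _ _).trans (min_le_left _ _)
      have hs2 : s ≤ t₂ := (min_le_right _ _).trans (min_le_right _ _)
      have h3 := second_diff_mono z v hs0 (min_le_left t (min t₁ t₂))
      have h4 : (‖z + t • v‖ + ‖z - t • v‖ - 2 * ‖z‖) / t < ε := by
        rw [div_lt_iff₀ ht]; exact hlt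
      have h5 : (‖z + s • v‖ + ‖z - s • v‖ - 2 * ‖z‖) / s < ε := lt_of_le_of_lt h3 h4
      have h6 : ‖z + s • v‖ = φ₁ (z + s • v) := e1 s ⟨hs0.le, hs1⟩
      have h7 : ‖z - s • v‖ = φ₂ (z - s • v) := by
        have := e2 s ⟨hs0.le, hs2⟩
        rw [smul_neg, ← sub_eq_add_neg] at this
        exact this
      rw [h6, h7, map_add, map_sub, map_smul, map_smul, hz1, hz2, smul_eq_mul, smul_eq_mul,
        div_lt_iff₀ hs0] at h5
      have h8 : s * (φ₁ v - φ₂ v) < s * ε := by nlinarith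
      have h9 := lt_of_mul_lt_mul_left h8 hs0.le
      linarith
    -- φ v is between
    have h3 : φ v ≤ φ₁ v := by
      have h4 := hle (z + t₁ • v)
      rw [e1 t₁ ⟨ht₁.le, le_rfl⟩, map_add, map_add, map_smul, map_smul, hz1, hφz', smul_eq_mul,
        smul_eq_mul] at h4
      have h5 : t₁ * φ v ≤ t₁ * φ₁ v := by linarith
      exact le_of_mul_le_mul_left h5 ht₁
    have h4 : φ₂ v ≤ φ v := by
      have h4 := hle (z + t₂ • (-v))
      rw [e2 t₂ ⟨ht₂.le, le_rfl⟩, map_add, map_add, map_smul, map_smul, hz2, hφz', smul_eq_mul,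
        smul_eq_mul, map_neg, map_neg] at h4
      have h5 : t₂ * φ₂ v ≤ t₂ * φ v := by linarith
      exact le_of_mul_le_mul_left h5 ht₂
    have h5 : φ v = φ₁ v := by linarith
    refine ⟨t₁, ht₁, ?_⟩
    rw [e1 t₁ ⟨ht₁.le, le_rfl⟩, map_add, map_add, map_smul, map_smul, hz1, hφz', h5]
  -- convexity of the cone P
  let P : Set X := {w | ‖w‖ ≤ φ w}
  have hPconv : Convex ℝ P := by
    intro a ha b hb s t hs ht hst
    change ‖s • a + t • b‖ ≤ φ (s • a + t • b)
    refine (norm_add_le _ _).trans ?_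
    rw [norm_smul, norm_smul, Real.norm_of_nonneg hs, Real.norm_of_nonneg ht, map_add, map_smul,
      map_smul, smul_eq_mul, smul_eq_mul]
    have ha' : ‖a‖ ≤ φ a := ha
    have hb' : ‖b‖ ≤ φ b := hb
    exact add_le_add (mul_le_mul_of_nonneg_left ha' hs) (mul_le_mul_of_nonneg_left hb' ht)
  have hzP : z ∈ P := hφz'.symm.le
  have hPclosed : IsClosed P := isClosed_le continuous_norm φ.continuous
  let C : ℕ → Set X := fun n => {v | z + (1 / ((n:ℝ) + 1)) • v ∈ P}
  have hCc : ∀ n, IsClosed (C n) := fun n => hPclosed.preimage (by fun_prop)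
  have hCu : ⋃ n, C n = univ := by
    rw [eq_univ_iff_forall]
    intro v
    obtain ⟨t, ht, h⟩ := key v
    obtain ⟨n, hn⟩ := exists_nat_one_div_lt ht
    rw [mem_iUnion]
    refine ⟨n, ?_⟩
    have h1 : z + t • v ∈ P := h.le
    have h2 : 0 ≤ 1 / ((n:ℝ) + 1) / t := by positivity
    have h3 : 0 ≤ 1 - 1 / ((n:ℝ) + 1) / t := by
      rw [sub_nonneg, div_le_one ht]; exact hn.le
    have h4 := hPconv hzP h1 h3 h2 (by ring)
    change z + (1 / ((n:ℝ) + 1)) • v ∈ P
    convert h4 using 1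
    rw [smul_add, smul_smul, div_mul_cancel₀ _ ht.ne', sub_smul, one_smul]
    abel
  obtain ⟨n, v₀, hv₀⟩ := nonempty_interior_of_iUnion_of_closed hCc hCu
  have hv₀C := mem_interior_iff_mem_nhds.1 hv₀
  obtain ⟨t', ht', h'⟩ := key (-v₀)
  have ht'P : z - t' • v₀ ∈ P := by
    have : z - t' • v₀ = z + t' • (-v₀) := by rw [smul_neg, sub_eq_add_neg]
    rw [this]; exact h'.le
  set t := 1 / ((n:ℝ) + 1) with ht
  have htp : 0 < t := by positivity
  -- the map w ↦ v with w = (t' (z + t v) + t (z - t' v₀)) / (t + t')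
  have hcont : Tendsto (fun w : X => v₀ + ((t + t') / (t * t')) • (w - z)) (𝓝 z) (𝓝 v₀) := by
    have h1 : Continuous (fun w : X => v₀ + ((t + t') / (t * t')) • (w - z)) := by fun_prop
    have h2 := h1.tendsto z
    simpa using h2
  have hev := hcont.eventually hv₀C
  filter_upwards [hev] with w hw
  apply le_antisymm _ (hle w)
  have h1 : z + t • (v₀ + ((t + t') / (t * t')) • (w - z)) ∈ P := hw
  have h2 : 0 ≤ t' / (t + t') := by positivity
  have h3 : 0 ≤ t / (t + t') := by positivity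
  have h4 := hPconv h1 ht'P h2 h3 (by rw [← add_div, add_comm t' t, div_self (by positivity)])
  have h5 : (t' / (t + t')) • (z + t • (v₀ + ((t + t') / (t * t')) • (w - z))) +
      (t / (t + t')) • (z - t' • v₀) = w := by
    have e1 : t + t' ≠ 0 := by positivity
    simp only [smul_add, smul_sub, smul_smul]
    have e2 : t' / (t + t') * (t * ((t + t') / (t * t'))) = 1 := by
      field_simp
    rw [e2, one_smul, one_smul]
    have e3 : (t' / (t + t') * t) • v₀ = (t / (t + t') * t') • v₀ := by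
      congr 1; field_simp
    rw [e3]
    have e4 : (t' / (t + t')) • z + (t / (t + t')) • z = z := by
      rw [← add_smul, ← add_div, add_comm t' t, div_self e1, one_smul]
    calc (t' / (t + t')) • z + ((t / (t + t') * t') • v₀ + (w - z)) +
          ((t / (t + t')) • z - (t / (t + t') * t') • v₀)
        = ((t' / (t + t')) • z + (t / (t + t')) • z) + (w - z) := by abel
      _ = w := by rw [e4]; abel
  rw [h5] at h4
  exact h4

/-- a countable boundary of a separable polyhedral space -/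
theorem countable_boundary [CompleteSpace X] [TopologicalSpace.SeparableSpace X]
    (hX : Polyhedral X) :
    ∃ φ : ℕ → StrongDual ℝ X, (∀ n, ‖φ n‖ ≤ 1) ∧ ∀ x : X, ∃ n, φ n x = ‖x‖ := by
  classical
  let D : Set X := {z | ∃ φ : StrongDual ℝ X, ‖φ‖ ≤ 1 ∧ LinAt φ z}
  have hDo : IsOpen D := by
    rw [isOpen_iff_mem_nhds]
    rintro z ⟨φ, hφ, h⟩
    filter_upwards [eventually_eventually_nhds.2 h] with w hw
    exact ⟨φ, hφ, hw⟩
  have hDd : Dense D := dense_smooth.mono fun z hz => linAt_of_smooth hX hz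
  obtain ⟨q, hq⟩ := TopologicalSpace.exists_dense_seq X
  have hch : ∀ n, ∃ φ : StrongDual ℝ X, ‖φ‖ ≤ 1 ∧ (q n ∈ D → LinAt φ (q n)) := by
    intro n
    by_cases h : q n ∈ D
    · obtain ⟨φ, h1, h2⟩ := h
      exact ⟨φ, h1, fun _ => h2⟩
    · exact ⟨0, by simp, fun h' => absurd h' h⟩
  choose φ hφ1 hφ2 using hch
  refine ⟨φ, hφ1, ?_⟩
  -- every functional of a point of D is one of the φ n
  have huniq : ∀ z (ψ : StrongDual ℝ X), LinAt ψ z → ‖ψ‖ ≤ 1 → ∃ n, φ n = ψ := by
    intro z ψ hψ hψ1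
    obtain ⟨U, hU1, hU2, hU3⟩ := _root_.eventually_nhds_iff.1 hψ
    obtain ⟨w, hwU, ⟨n, rfl⟩⟩ := hq.inter_open_nonempty U hU2 ⟨z, hU3⟩
    have h1 : LinAt ψ (q n) := _root_.eventually_nhds_iff.2 ⟨U, hU1, hU2, hwU⟩
    have h2 : LinAt (φ n) (q n) := hφ2 n ⟨ψ, hψ1, h1⟩
    refine ⟨n, ?_⟩
    have h3 : ∀ᶠ w in 𝓝 (q n), (φ n - ψ) w = 0 := by
      filter_upwards [h1, h2] with w hw1 hw2
      change φ n w - ψ w = 0
      rw [← hw1, ← hw2, sub_self]
    have h4 : φ n - ψ = 0 := by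
      ext v
      have hc : Tendsto (fun t : ℝ => q n + t • v) (𝓝[>] 0) (𝓝 (q n)) := by
        have : Continuous (fun t : ℝ => q n + t • v) := by fun_prop
        have h := this.tendsto 0
        rw [zero_smul, add_zero] at h
        exact h.mono_left nhdsWithin_le_nhds
      obtain ⟨t, ht1, ht2⟩ := ((hc.eventually h3).and self_mem_nhdsWithin).exists
      have htp : (0:ℝ) < t := ht2
      have h5 : (φ n - ψ) (q n) = 0 := h3.self_of_nhds
      rw [map_add, h5, map_smul, zero_add, smul_eq_mul] at ht1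
      have := (mul_eq_zero.1 ht1).resolve_left htp.ne'
      simpa using this
    exact sub_eq_zero.1 h4
  intro x
  let V : ℕ → Set X := fun m => ⋃ t ∈ Ioo (0:ℝ) (1 / ((m:ℝ) + 1)), {y | x + t • y ∈ D}
  have hVo : ∀ m, IsOpen (V m) := by
    intro m
    refine isOpen_biUnion fun t _ => ?_
    exact hDo.preimage (by fun_prop)
  have hVd : ∀ m, Dense (V m) := by
    intro m
    rw [Metric.dense_iff]
    intro y r hr
    set t : ℝ := 1 / ((m:ℝ) + 2) with ht
    have htp : 0 < t := by positivity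
    obtain ⟨w, hw, hwD⟩ := Metric.dense_iff.1 hDd (x + t • y) (t * r) (by positivity)
    refine ⟨t⁻¹ • (w - x), ?_, ?_⟩
    · rw [mem_ball, dist_eq_norm] at hw ⊢
      have : t⁻¹ • (w - x) - y = t⁻¹ • (w - (x + t • y)) := by
        rw [smul_sub, smul_sub, smul_add, smul_smul, inv_mul_cancel₀ htp.ne', one_smul]
        abel
      rw [this, norm_smul, norm_inv, Real.norm_of_nonneg htp.le, inv_mul_lt_iff₀ htp]
      exact hw
    · simp only [V, mem_iUnion]
      refine ⟨t, ⟨htp, ?_⟩, ?_⟩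
      · rw [ht]
        apply one_div_lt_one_div_of_lt <;> [positivity; linarith]
      · change x + t • (t⁻¹ • (w - x)) ∈ D
        rw [smul_smul, mul_inv_cancel₀ htp.ne', one_smul]
        simpa using hwD
  obtain ⟨y, hy⟩ := (dense_iInter_of_isOpen hVo hVd).nonempty
  rw [mem_iInter] at hy
  obtain ⟨ψ, hψ, t₁, ht₁, he⟩ := affine_germ hX x y
  obtain ⟨m, hm⟩ := exists_nat_one_div_lt ht₁
  have h1 := hy m
  simp only [V, mem_iUnion] at h1
  obtain ⟨t, ht, φ', hφ', hL⟩ := h1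
  obtain ⟨n, hn⟩ := huniq _ φ' hL hφ'
  refine ⟨n, ?_⟩
  rw [hn]
  have hx : ψ x = ‖x‖ := by
    have := he 0 ⟨le_rfl, ht₁.le⟩
    simpa using this.symm
  -- the two functionals agree on the line
  have hc : Tendsto (fun s : ℝ => x + s • y) (𝓝[>] t) (𝓝 (x + t • y)) := by
    have : Continuous (fun t : ℝ => x + t • y) := by fun_prop
    exact (this.tendsto t).mono_left nhdsWithin_le_nhds
  have hlt : ∀ᶠ s in 𝓝[>] t, s < t₁ :=
    (eventually_lt_nhds (ht.2.trans hm)).filter_mono nhdsWithin_le_nhds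
  obtain ⟨s, ⟨hs1, hs2⟩, hs3⟩ := (((hc.eventually hL).and hlt).and self_mem_nhdsWithin).exists
  have hst : t < s := hs3
  have e1 : φ' (x + s • y) = ψ (x + s • y) := by
    rw [← hs1]
    exact he s ⟨(ht.1.trans hst).le, hs2.le⟩
  have e2 : φ' (x + t • y) = ψ (x + t • y) := by
    have h2 : ‖x + t • y‖ = φ' (x + t • y) := hL.self_of_nhds
    rw [← h2]
    exact he t ⟨ht.1.le, (ht.2.trans hm).le⟩
  rw [map_add, map_add, map_smul, map_smul, smul_eq_mul, smul_eq_mul] at e1 e2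
  have e3 : (s - t) * (φ' y - ψ y) = 0 := by linarith
  have e4 : φ' y = ψ y := by
    rcases mul_eq_zero.1 e3 with h | h
    · exact absurd h (sub_ne_zero.2 hst.ne')
    · linarith
  rw [e4] at e1
  linarith


/-- no equivalent norm of an infinite-dimensional Hilbert space has a countable boundary -/
theorem no_boundary {H : Type*} [NormedAddCommGroup H] [InnerProductSpace ℝ H] [CompleteSpace H]
    (hH : ¬ FiniteDimensional ℝ H) [Nontrivial X] (e : X ≃L[ℝ] H)
    (φ : ℕ → StrongDual ℝ X) (hφ : ∀ n, ‖φ n‖ ≤ 1) (hb : ∀ x : X, ∃ n, φ n x = ‖x‖) : False := by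
  classical
  -- work in `H` with the norm `N`
  let N : H → ℝ := fun h => ‖e.symm h‖
  have hNc : Continuous N := continuous_norm.comp e.symm.continuous
  let γ : ℕ → H := fun n => (InnerProductSpace.toDual ℝ H).symm ((φ n).comp (e.symm : H →L[ℝ] X))
  have hγ : ∀ n h, inner ℝ (γ n) h = φ n (e.symm h) := by
    intro n h
    simp [γ, InnerProductSpace.toDual_symm_apply]
  -- one step
  have step : ∀ (n : ℕ) (p : H × Submodule ℝ H), FiniteDimensional ℝ p.2 → p.1 ∈ p.2 →
      N p.1 = 1 - (1/2:ℝ)^n → ∃ x' : H, (∀ w ∈ p.2, inner ℝ w (x' - p.1) = 0) ∧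
        N x' = 1 - (1/2:ℝ)^(n+1) := by
    intro n p hp hpx hN
    have := hp
    have hne : p.2ᗮ ≠ ⊥ := by
      intro h
      apply hH
      have h1 : p.2 = ⊤ := by
        rw [Submodule.orthogonal_eq_bot_iff] at h
        exact h
      rw [h1] at hp
      exact (Submodule.topEquiv (R := ℝ) (M := H)).finiteDimensional
    obtain ⟨y, hy, hy0⟩ := Submodule.exists_mem_ne_zero_of_ne_bot hne
    let g : ℝ → ℝ := fun t => N (p.1 + t • y)
    have hgc : Continuous g := hNc.comp (by fun_prop)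
    have hg0 : g 0 = 1 - (1/2:ℝ)^n := by simp only [g, zero_smul, add_zero]; exact hN
    have hey : 0 < ‖e.symm y‖ := by
      rw [norm_pos_iff]
      intro h
      exact hy0 (by simpa using h)
    obtain ⟨T, hT0, hT⟩ : ∃ T : ℝ, 0 ≤ T ∧ 1 ≤ g T := by
      refine ⟨2 / ‖e.symm y‖, by positivity, ?_⟩
      have h1 : g (2 / ‖e.symm y‖) = ‖e.symm p.1 + (2 / ‖e.symm y‖) • e.symm y‖ := by
        simp only [g, N, map_add, map_smul]
      rw [h1]
      have h2 : ‖(2 / ‖e.symm y‖) • e.symm y‖ = 2 := by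
        rw [norm_smul, norm_div, norm_norm, Real.norm_of_nonneg (by norm_num : (0:ℝ) ≤ 2),
          div_mul_cancel₀ _ hey.ne']
      have h3 : ‖(2 / ‖e.symm y‖) • e.symm y‖ ≤
          ‖e.symm p.1 + (2 / ‖e.symm y‖) • e.symm y‖ + ‖e.symm p.1‖ := by
        have := norm_sub_le (e.symm p.1 + (2 / ‖e.symm y‖) • e.symm y) (e.symm p.1)
        rwa [add_sub_cancel_left] at this
      have h4 : ‖e.symm p.1‖ ≤ 1 := by
        change N p.1 ≤ 1
        rw [hN]
        have : (0:ℝ) ≤ (1/2:ℝ)^n := by positivity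
        linarith
      linarith
    have hmem : 1 - (1/2:ℝ)^(n+1) ∈ Icc (g 0) (g T) := by
      rw [hg0]
      have h1 : (1/2:ℝ)^(n+1) ≤ (1/2:ℝ)^n := by
        rw [pow_succ]
        have : (0:ℝ) ≤ (1/2:ℝ)^n := by positivity
        linarith
      have h2 : (0:ℝ) ≤ (1/2:ℝ)^(n+1) := by positivity
      constructor <;> linarith
    obtain ⟨t, ht, hgt⟩ := intermediate_value_Icc hT0 hgc.continuousOn hmem
    refine ⟨p.1 + t • y, ?_, hgt⟩
    intro w hw
    rw [add_sub_cancel_left, inner_smul_right, (Submodule.mem_orthogonal _ _).1 hy w hw, mul_zero]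
  -- the sequence
  let St : ℕ → Type _ := fun n => {p : H × Submodule ℝ H // FiniteDimensional ℝ p.2 ∧ p.1 ∈ p.2 ∧
    N p.1 = 1 - (1/2:ℝ)^n}
  have next : ∀ (n : ℕ) (p : St n), ∃ q : St (n+1),
      (∀ w ∈ p.1.2, inner ℝ w (q.1.1 - p.1.1) = 0) ∧ p.1.2 ≤ q.1.2 ∧ γ n ∈ q.1.2 := by
    rintro n ⟨p, hp1, hp2, hp3⟩
    have := hp1
    have : FiniteDimensional ℝ (p.2 ⊔ Submodule.span ℝ {γ n} : Submodule ℝ H) := inferInstance
    by_cases hdummy : True
    · -- enlarge first by γ n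
      obtain ⟨x', h1, h2⟩ := step n (p.1, p.2 ⊔ Submodule.span ℝ {γ n}) this
        (Submodule.mem_sup_left hp2) hp3
      have : FiniteDimensional ℝ
        ((p.2 ⊔ Submodule.span ℝ {γ n}) ⊔ Submodule.span ℝ {x'} : Submodule ℝ H) := inferInstance
      refine ⟨⟨(x', (p.2 ⊔ Submodule.span ℝ {γ n}) ⊔ Submodule.span ℝ {x'}), this, ?_, h2⟩, ?_, ?_, ?_⟩
      · exact Submodule.mem_sup_right (Submodule.mem_span_singleton_self _)
      · intro w hw
        exact h1 w (Submodule.mem_sup_left hw)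
      · exact le_sup_left.trans le_sup_left
      · exact Submodule.mem_sup_left (Submodule.mem_sup_right (Submodule.mem_span_singleton_self _))
    · exact absurd trivial hdummy
  choose nx hnx1 hnx2 hnx3 using next
  have h0 : N 0 = 1 - (1/2:ℝ)^0 := by simp [N]
  let s : ∀ n, St n := fun n => Nat.rec ⟨(0, ⊥), inferInstance, Submodule.zero_mem _, h0⟩ (fun k p => nx k p) n
  have hs : ∀ n, s (n+1) = nx n (s n) := fun n => rfl
  let x : ℕ → H := fun n => (s n).1.1
  let W : ℕ → Submodule ℝ H := fun n => (s n).1.2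
  have hW : Monotone W := by
    apply monotone_nat_of_le_succ
    intro n
    exact hnx2 n (s n)
  have hxW : ∀ n, x n ∈ W n := fun n => (s n).2.2.1
  have hxN : ∀ n, N (x n) = 1 - (1/2:ℝ)^n := fun n => (s n).2.2.2
  have hγW : ∀ n, γ n ∈ W (n+1) := fun n => hnx3 n (s n)
  have horth1 : ∀ n, ∀ w ∈ W n, inner ℝ w (x (n+1) - x n) = 0 := fun n => hnx1 n (s n)
  have horth : ∀ n m, n ≤ m → ∀ w ∈ W n, inner ℝ w (x m - x n) = 0 := by
    intro n m hnm w hw
    induction m, hnm using Nat.le_induction with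
    | base => simp
    | succ m hm ih =>
      have h1 : x (m+1) - x n = (x (m+1) - x m) + (x m - x n) := by abel
      rw [h1, inner_add_right, ih, add_zero]
      exact horth1 m w (hW hm hw)
  have hpyth : ∀ n m, n ≤ m → ‖x m - x n‖ ^ 2 = ‖x m‖ ^ 2 - ‖x n‖ ^ 2 := by
    intro n m hnm
    have h1 := horth n m hnm (x n) (hxW n)
    have h2 : x m = x n + (x m - x n) := by abel
    have h3 := norm_add_sq_real (x n) (x m - x n)
    rw [h1] at h3
    rw [← h2] at h3
    linarith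
  -- bounded
  have hbd : ∀ n, ‖x n‖ ^ 2 ≤ ‖(e : X →L[ℝ] H)‖ ^ 2 := by
    intro n
    have h1 : ‖x n‖ ≤ ‖(e : X →L[ℝ] H)‖ * 1 := by
      have h2 : x n = (e : X →L[ℝ] H) (e.symm (x n)) := by simp
      rw [h2]
      refine (ContinuousLinearMap.le_opNorm _ _).trans ?_
      have h3 : ‖e.symm (x n)‖ ≤ 1 := by
        change N (x n) ≤ 1
        rw [hxN]
        have : (0:ℝ) ≤ (1/2:ℝ)^n := by positivity
        linarith
      exact mul_le_mul_of_nonneg_left h3 (norm_nonneg _)
    rw [mul_one] at h1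
    exact pow_le_pow_left₀ (norm_nonneg _) h1 2
  have hmono : Monotone fun n => ‖x n‖ ^ 2 := by
    intro n m hnm
    have := hpyth n m hnm
    have h2 : 0 ≤ ‖x m - x n‖ ^ 2 := by positivity
    change ‖x n‖ ^ 2 ≤ ‖x m‖ ^ 2
    linarith
  have hconv := tendsto_atTop_ciSup hmono ⟨_, by rintro _ ⟨n, rfl⟩; exact hbd n⟩
  have hcau : CauchySeq x := by
    have hc2 := hconv.cauchySeq
    rw [Metric.cauchySeq_iff'] at hc2 ⊢
    intro ε hε
    obtain ⟨n₀, hn₀⟩ := hc2 (ε ^ 2) (by positivity)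
    refine ⟨n₀, fun n hn => ?_⟩
    have h1 := hn₀ n hn
    rw [Real.dist_eq, ← hpyth n₀ n hn, abs_of_nonneg (by positivity)] at h1
    rw [dist_eq_norm]
    exact lt_of_pow_lt_pow_left₀ 2 hε.le h1
  obtain ⟨z, hz⟩ := cauchySeq_tendsto_of_complete hcau
  have hNz : N z = 1 := by
    have h1 : Tendsto (fun n => N (x n)) atTop (𝓝 (N z)) := (hNc.tendsto z).comp hz
    have h2 : Tendsto (fun n : ℕ => 1 - (1/2:ℝ)^n) atTop (𝓝 (1 - 0)) :=
      (tendsto_pow_atTop_nhds_zero_of_lt_one (by norm_num) (by norm_num)).const_sub 1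
    have h3 : (fun n => N (x n)) = fun n : ℕ => 1 - (1/2:ℝ)^n := funext hxN
    rw [h3] at h1
    have := tendsto_nhds_unique h1 h2
    linarith
  obtain ⟨n, hn⟩ := hb (e.symm z)
  have h1 : φ n (e.symm z) = 1 := by rw [hn]; exact hNz
  have h2 : inner ℝ (γ n) z = inner ℝ (γ n) (x (n+1)) := by
    have h3 : Tendsto (fun m => (inner ℝ (γ n) (x m) : ℝ)) atTop (𝓝 (inner ℝ (γ n) z)) :=
      (continuous_const.inner continuous_id).tendsto z |>.comp hz
    have h4 : Tendsto (fun m => (inner ℝ (γ n) (x m) : ℝ)) atTop (𝓝 (inner ℝ (γ n) (x (n+1)))) := by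
      apply tendsto_const_nhds.congr'
      filter_upwards [eventually_ge_atTop (n+1)] with m hm
      have := horth (n+1) m hm (γ n) (hγW n)
      rw [inner_sub_right] at this
      linarith
    exact tendsto_nhds_unique h3 h4
  have h3 : φ n (e.symm (x (n+1))) = 1 := by rw [← hγ, ← h2, hγ, h1]
  have h4 := le_norm_of (hφ n) (e.symm (x (n+1)))
  have h5 : ‖e.symm (x (n+1))‖ = 1 - (1/2:ℝ)^(n+1) := hxN (n+1)
  have h6 : (0:ℝ) < (1/2:ℝ)^(n+1) := by positivity
  linarith

/-- A polyhedral Banach space is not isomorphic to the Hilbert space `ℓ²`. -/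
theorem not_iso_hilbert {Z : Type*} [NormedAddCommGroup Z] [NormedSpace ℝ Z] [CompleteSpace Z]
    (hZ : Polyhedral Z) {H : Type*} [NormedAddCommGroup H] [InnerProductSpace ℝ H] [CompleteSpace H]
    [TopologicalSpace.SeparableSpace H] (hH : ¬ FiniteDimensional ℝ H) (e : Z ≃L[ℝ] H) : False := by
  have : TopologicalSpace.SeparableSpace Z :=
    e.symm.surjective.denseRange.separableSpace e.symm.continuous
  have : Nontrivial Z := by
    by_contra hcon
    rw [not_nontrivial_iff_subsingleton] at hcon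
    apply hH
    have : Subsingleton H := e.symm.injective.subsingleton
    infer_instance
  obtain ⟨φ, h1, h2⟩ := countable_boundary hZ
  exact no_boundary hH e φ h1 h2

end Pool.Agent.R277.Poly
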