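import Mathlib

/-!
# Two trees with small balls whose sum contains the unit ball

Helper file for MP_8cd1d0_an.
-/

set_option autoImplicit false

open Set Filter Topology Metric

namespace Pool.Agent.R277.Sbp

/-- sizes of the cylinders: `rr k j = ∏ i < j, (1/4) (1/2)^(k i)` -/
noncomputable def rr (k : ℕ → ℕ) (j : ℕ) : ℝ := ∏ i ∈ Finset.range j, (1/4 : ℝ) * (1/2 : ℝ) ^ (k i)

lemma rr_zero (k : ℕ → ℕ) : rr k 0 = 1 := by simp [rr]

lemma rr_succ (k : ℕ → ℕ) (j : ℕ) : rr k (j+1) = rr k j * ((1/4 : ℝ) * (1/2 : ℝ) ^ (k j)) := by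
  simp [rr, Finset.prod_range_succ]

lemma rr_pos (k : ℕ → ℕ) (j : ℕ) : 0 < rr k j := by
  unfold rr; positivity

lemma step_le (n : ℕ) : (1/4 : ℝ) * (1/2 : ℝ) ^ n ≤ 1/4 := by
  have : (1/2 : ℝ) ^ n ≤ 1 := pow_le_one₀ (by norm_num) (by norm_num)
  linarith

lemma rr_add_le (k : ℕ → ℕ) (j i : ℕ) : rr k (j + i) ≤ rr k j * (1/4 : ℝ) ^ i := by
  induction i with
  | zero => simp
  | succ i ih =>
    rw [← add_assoc, rr_succ, pow_succ, ← mul_assoc (rr k j)]
    have h1 := step_le (k (j + i))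
    have h2 := rr_pos k (j + i)
    calc rr k (j + i) * (1/4 * (1/2) ^ k (j + i)) ≤ rr k (j + i) * (1/4) := by gcongr
      _ ≤ rr k j * (1/4) ^ i * (1/4) := by gcongr

lemma rr_le (k : ℕ → ℕ) (j : ℕ) : rr k j ≤ (1/4 : ℝ) ^ j := by
  have := rr_add_le k 0 j
  simpa [rr_zero] using this

lemma rr_le_one (k : ℕ → ℕ) (j : ℕ) : rr k j ≤ 1 :=
  (rr_le k j).trans (pow_le_one₀ (by norm_num) (by norm_num))

lemma rr_anti (k : ℕ → ℕ) {i j : ℕ} (h : i ≤ j) : rr k j ≤ rr k i := by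
  obtain ⟨d, rfl⟩ := Nat.exists_eq_add_of_le h
  refine (rr_add_le k i d).trans ?_
  have h1 : (1/4 : ℝ) ^ d ≤ 1 := pow_le_one₀ (by norm_num) (by norm_num)
  have h2 := rr_pos k i
  nlinarith

lemma rr_congr {k l : ℕ → ℕ} {j : ℕ} (h : ∀ i < j, k i = l i) : rr k j = rr l j := by
  unfold rr
  apply Finset.prod_congr rfl
  intro i hi
  rw [h i (Finset.mem_range.1 hi)]

section vec

variable {E : Type*} [NormedAddCommGroup E] [NormedSpace ℝ E] [CompleteSpace E]
  (e : ℕ → E) (he : ∀ n, ‖e n‖ ≤ 1)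

/-- the point with address `k` -/
noncomputable def pt (k : ℕ → ℕ) : E := ∑' j, rr k j • e (k j)

include he in
omit [CompleteSpace E] in
lemma term_le (k : ℕ → ℕ) (j : ℕ) : ‖rr k j • e (k j)‖ ≤ rr k j := by
  rw [norm_smul, Real.norm_of_nonneg (rr_pos k j).le]
  have := he (k j)
  have h2 := rr_pos k j
  nlinarith

lemma summable_quarter : Summable fun j : ℕ => (1/4 : ℝ) ^ j :=
  summable_geometric_of_lt_one (by norm_num) (by norm_num)

include he in
lemma summable_pt (k : ℕ → ℕ) : Summable fun j => rr k j • e (k j) := by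
  refine Summable.of_norm_bounded summable_quarter ?_
  intro j
  exact (term_le e he k j).trans (rr_le k j)

include he in
/-- two addresses which agree up to `j` give points at distance at most `4 rr k j` -/
lemma pt_close {k l : ℕ → ℕ} {j : ℕ} (h : ∀ i < j, k i = l i) :
    ‖pt e k - pt e l‖ ≤ 4 * rr k j := by
  have hk := summable_pt e he k
  have hl := summable_pt e he l
  unfold pt
  rw [← hk.tsum_sub hl]
  have hs : Summable fun i => rr k i • e (k i) - rr l i • e (l i) := hk.sub hl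
  rw [← hs.sum_add_tsum_nat_add j]
  have h0 : ∑ i ∈ Finset.range j, (rr k i • e (k i) - rr l i • e (l i)) = 0 := by
    apply Finset.sum_eq_zero
    intro i hi
    have hi' := Finset.mem_range.1 hi
    rw [rr_congr (fun m hm => h m (hm.trans hi')), h i hi', sub_self]
  rw [h0, zero_add]
  have hrl : rr l j = rr k j := (rr_congr h).symm
  have hb : ∀ i, ‖rr k (i + j) • e (k (i + j)) - rr l (i + j) • e (l (i + j))‖ ≤
      (2 * rr k j) * (1/4 : ℝ) ^ i := by
    intro i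
    refine (norm_sub_le _ _).trans ?_
    have h1 := (term_le e he k (i + j))
    have h2 := (term_le e he l (i + j))
    have h3 := rr_add_le k j i
    have h4 := rr_add_le l j i
    rw [hrl] at h4
    rw [add_comm i j] at h1 h2 ⊢
    linarith
  have hg : HasSum (fun i : ℕ => (2 * rr k j) * (1/4 : ℝ) ^ i) ((2 * rr k j) * (1 - 1/4)⁻¹) :=
    (hasSum_geometric_of_lt_one (by norm_num) (by norm_num)).mul_left _
  have := tsum_of_norm_bounded hg hb
  refine this.trans ?_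
  have := rr_pos k j
  norm_num
  linarith

omit [CompleteSpace E] in
/-- one step of the matching process -/
lemma exists_near (hd : ∀ v : E, ‖v‖ ≤ 1 → ∀ δ : ℝ, 0 < δ → ∃ n, ‖v - e n‖ ≤ δ) (v : E) (s δ : ℝ)
    (hs : 0 < s) (hδ : 0 < δ) (hv : ‖v‖ ≤ s) : ∃ n, ‖v - s • e n‖ ≤ δ := by
  obtain ⟨n, hn⟩ := hd (s⁻¹ • v) (by
    rw [norm_smul, norm_inv, Real.norm_of_nonneg hs.le, inv_mul_le_iff₀ hs, mul_one]; exact hv)
    (δ / s) (by positivity)
  refine ⟨n, ?_⟩
  have h1 : v - s • e n = s • (s⁻¹ • v - e n) := by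
    rw [smul_sub, smul_smul, mul_inv_cancel₀ hs.ne', one_smul]
  rw [h1, norm_smul, Real.norm_of_nonneg hs.le]
  calc s * ‖s⁻¹ • v - e n‖ ≤ s * (δ / s) := by gcongr
    _ = δ := by field_simp

include he in
/-- every vector of the unit ball is the sum of two points of the tree -/
theorem exists_sum (hd : ∀ v : E, ‖v‖ ≤ 1 → ∀ δ : ℝ, 0 < δ → ∃ n, ‖v - e n‖ ≤ δ) (h : E)
    (hh : ‖h‖ ≤ 1) : ∃ k l : ℕ → ℕ, pt e k + pt e l = h := by
  classical
  -- states: remainder, size for `k`, size for `l`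
  let S : Type _ := {p : E × ℝ × ℝ // 0 < p.2.1 ∧ 0 < p.2.2 ∧ ‖p.1‖ ≤ p.2.2}
  have hstep : ∀ p : S, ∃ (a b : ℕ),
      ‖p.1.1 - p.1.2.2 • e b‖ ≤ p.1.2.1 ∧
      ‖p.1.1 - p.1.2.2 • e b - p.1.2.1 • e a‖ ≤ p.1.2.2 * ((1/4 : ℝ) * (1/2 : ℝ) ^ b) := by
    rintro ⟨⟨R, ρ, σ⟩, hρ, hσ, hR⟩
    obtain ⟨b, hb⟩ := exists_near e hd R σ ρ hσ hρ hR
    obtain ⟨a, ha⟩ := exists_near e hd (R - σ • e b) ρ (σ * ((1/4 : ℝ) * (1/2 : ℝ) ^ b)) hρ
      (by change 0 < σ at hσ; positivity) hb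
    exact ⟨a, b, hb, ha⟩
  choose A B hAB1 hAB2 using hstep
  let nx : S → S := fun p => ⟨(p.1.1 - p.1.2.2 • e (B p) - p.1.2.1 • e (A p),
    p.1.2.1 * ((1/4 : ℝ) * (1/2 : ℝ) ^ (A p)), p.1.2.2 * ((1/4 : ℝ) * (1/2 : ℝ) ^ (B p))), by
      have := p.2.1; positivity, by have := p.2.2.1; positivity, hAB2 p⟩
  let s : ℕ → S := fun n => Nat.rec ⟨(h, 1, 1), one_pos, one_pos, hh⟩ (fun _ p => nx p) n
  let k : ℕ → ℕ := fun n => A (s n)
  let l : ℕ → ℕ := fun n => B (s n)
  have hk : ∀ n, (s n).1.2.1 = rr k n := by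
    intro n
    induction n with
    | zero => rw [rr_zero]; rfl
    | succ n ih =>
      rw [rr_succ, ← ih]
  have hl : ∀ n, (s n).1.2.2 = rr l n := by
    intro n
    induction n with
    | zero => rw [rr_zero]; rfl
    | succ n ih =>
      rw [rr_succ, ← ih]
  have hsum : ∀ n, (s n).1.1 = h - ∑ j ∈ Finset.range n, (rr k j • e (k j) + rr l j • e (l j)) := by
    intro n
    induction n with
    | zero => simp [s]
    | succ n ih =>
      rw [Finset.sum_range_succ]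
      change (s n).1.1 - (s n).1.2.2 • e (l n) - (s n).1.2.1 • e (k n) = _
      rw [ih, hk, hl]
      abel
  have hlim : Tendsto (fun n => ∑ j ∈ Finset.range n, (rr k j • e (k j) + rr l j • e (l j))) atTop
      (𝓝 h) := by
    rw [tendsto_iff_norm_sub_tendsto_zero]
    have hb : ∀ n, ‖∑ j ∈ Finset.range n, (rr k j • e (k j) + rr l j • e (l j)) - h‖ ≤ (1/4 : ℝ) ^ n := by
      intro n
      have h1 : ∑ j ∈ Finset.range n, (rr k j • e (k j) + rr l j • e (l j)) - h = - (s n).1.1 := by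
        rw [hsum]; abel
      rw [h1, norm_neg]
      refine (s n).2.2.2.trans ?_
      rw [hl]
      exact rr_le l n
    exact squeeze_zero (fun _ => norm_nonneg _) hb
      (tendsto_pow_atTop_nhds_zero_of_lt_one (by norm_num) (by norm_num))
  refine ⟨k, l, ?_⟩
  have h1 := ((summable_pt e he k).add (summable_pt e he l)).hasSum.tendsto_sum_nat
  have h2 := tendsto_nhds_unique h1 hlim
  rw [← h2, (summable_pt e he k).tsum_add (summable_pt e he l)]
  rfl

end vec

end Pool.Agent.R277.Sbp
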