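import Pool.Agent.R277.Sbp

/-!
# The metric space with the small ball property

Helper file for MP_8cd1d0_an.
-/

set_option autoImplicit false

open Set Filter Topology Metric

namespace Pool.Agent.R277.Sbp

/-- the underlying set of the metric space: two copies of the Baire space -/
def Pt {E : Type*} (_e : ℕ → E) : Type := Bool × (ℕ → ℕ)

/-- constructor -/
def Pt.mk {E : Type*} (e : ℕ → E) (b : Bool) (k : ℕ → ℕ) : Pt e := (b, k)

set_option linter.unusedSectionVars false
set_option linter.style.haveILetI false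

variable {E : Type*} [NormedAddCommGroup E] [NormedSpace ℝ E] [CompleteSpace E]

/-- the value of a point in `E` -/
noncomputable def val (e : ℕ → E) (p : Pt e) : E := if p.1 then - pt e p.2 else pt e p.2

open Classical in
/-- the ultrametric part of the distance -/
noncomputable def ud {e : ℕ → E} (p q : Pt e) : ℝ :=
  if p.1 = q.1 then (if p.2 = q.2 then 0 else rr p.2 (PiNat.firstDiff p.2 q.2)) else 1

lemma ud_nonneg {e : ℕ → E} (p q : Pt e) : 0 ≤ ud p q := by
  unfold ud
  split_ifs
  · exact le_rfl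
  · exact (rr_pos _ _).le
  · exact zero_le_one

lemma ud_le_one {e : ℕ → E} (p q : Pt e) : ud p q ≤ 1 := by
  unfold ud
  split_ifs
  · exact zero_le_one
  · exact rr_le_one _ _
  · exact le_rfl

lemma ud_self {e : ℕ → E} (p : Pt e) : ud p p = 0 := by simp [ud]

lemma ud_comm {e : ℕ → E} (p q : Pt e) : ud p q = ud q p := by
  unfold ud
  by_cases h : p.1 = q.1
  · by_cases h2 : p.2 = q.2
    · simp [h, h2]
    · rw [if_pos h, if_pos h.symm, if_neg h2, if_neg (Ne.symm h2), PiNat.firstDiff_comm]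
      apply rr_congr
      intro i hi
      rw [PiNat.firstDiff_comm] at hi
      exact PiNat.apply_eq_of_lt_firstDiff hi
  · rw [if_neg h, if_neg (Ne.symm h)]

lemma ud_triangle {e : ℕ → E} (p q r : Pt e) : ud p r ≤ max (ud p q) (ud q r) := by
  by_cases h1 : p.1 = q.1
  · by_cases h2 : q.1 = r.1
    · by_cases h3 : p.2 = q.2
      · have : p = q := Prod.ext h1 h3
        rw [this]; exact le_max_right _ _
      · by_cases h4 : q.2 = r.2
        · have : q = r := Prod.ext h2 h4
          rw [this]; exact le_max_left _ _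
        · by_cases h5 : p.2 = r.2
          · have : p = r := Prod.ext (h1.trans h2) h5
            rw [this, ud_self]
            exact le_max_of_le_left (ud_nonneg _ _)
          · have e1 : ud p r = rr p.2 (PiNat.firstDiff p.2 r.2) := by
              unfold ud; rw [if_pos (h1.trans h2), if_neg h5]
            have e2 : ud p q = rr p.2 (PiNat.firstDiff p.2 q.2) := by
              unfold ud; rw [if_pos h1, if_neg h3]
            have e3 : ud q r = rr q.2 (PiNat.firstDiff q.2 r.2) := by
              unfold ud; rw [if_pos h2, if_neg h4]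
            have hm := PiNat.min_firstDiff_le p.2 q.2 r.2 h5
            rw [e1, e2, e3]
            rcases le_total (PiNat.firstDiff p.2 q.2) (PiNat.firstDiff q.2 r.2) with h | h
            · rw [min_eq_left h] at hm
              exact (rr_anti _ hm).trans (le_max_left _ _)
            · rw [min_eq_right h] at hm
              refine (rr_anti _ hm).trans ?_
              refine le_trans (le_of_eq ?_) (le_max_right _ _)
              apply rr_congr
              intro i hi
              exact PiNat.apply_eq_of_lt_firstDiff (hi.trans_le h)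
    · have : ud q r = 1 := by unfold ud; rw [if_neg h2]
      rw [this]
      exact (ud_le_one _ _).trans (le_max_right _ _)
  · have : ud p q = 1 := by unfold ud; rw [if_neg h1]
    rw [this]
    exact (ud_le_one _ _).trans (le_max_left _ _)

lemma eq_of_ud {e : ℕ → E} {p q : Pt e} (h : ud p q = 0) : p = q := by
  unfold ud at h
  split_ifs at h with h1 h2
  · exact Prod.ext h1 h2
  · exact absurd h (rr_pos _ _).ne'
  · exact absurd h one_ne_zero

noncomputable instance (e : ℕ → E) : MetricSpace (Pt e) where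
  dist p q := max ‖val e p - val e q‖ (ud p q)
  dist_self p := by simp [ud_self]
  dist_comm p q := by rw [norm_sub_rev, ud_comm]
  dist_triangle p q r := by
    have h1 : ‖val e p - val e r‖ ≤ ‖val e p - val e q‖ + ‖val e q - val e r‖ := by
      have : val e p - val e r = (val e p - val e q) + (val e q - val e r) := by abel
      rw [this]; exact norm_add_le _ _
    have h2 := ud_triangle p q r
    have h3 := ud_nonneg p q
    have h4 := ud_nonneg q r
    apply max_le
    · exact h1.trans (add_le_add (le_max_left _ _) (le_max_left _ _))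
    · refine h2.trans (max_le ?_ ?_)
      · have h5 : ud p q ≤ max ‖val e p - val e q‖ (ud p q) := le_max_right _ _
        have h6 : 0 ≤ max ‖val e q - val e r‖ (ud q r) := h4.trans (le_max_right _ _)
        linarith
      · have h5 : ud q r ≤ max ‖val e q - val e r‖ (ud q r) := le_max_right _ _
        have h6 : 0 ≤ max ‖val e p - val e q‖ (ud p q) := h3.trans (le_max_right _ _)
        linarith
  eq_of_dist_eq_zero := by
    intro p q h
    apply eq_of_ud
    apply le_antisymm _ (ud_nonneg _ _)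
    rw [← h]; exact le_max_right _ _

lemma dist_pt {e : ℕ → E} (p q : Pt e) : dist p q = max ‖val e p - val e q‖ (ud p q) := rfl

lemma val_lip {e : ℕ → E} (p q : Pt e) : ‖val e p - val e q‖ ≤ dist p q := le_max_left _ _

lemma ud_le_dist {e : ℕ → E} (p q : Pt e) : ud p q ≤ dist p q := le_max_right _ _

section

variable {e : ℕ → E} (he : ∀ n, ‖e n‖ ≤ 1)
include he

/-- points with the same first coordinate which agree up to `j` are close -/
lemma dist_le_of_agree {p q : Pt e} {j : ℕ} (h1 : p.1 = q.1) (h : ∀ i < j, p.2 i = q.2 i) :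
    dist p q ≤ 4 * rr p.2 j := by
  rw [dist_pt]
  have h2 := pt_close e he h
  have h3 : ‖val e p - val e q‖ = ‖pt e p.2 - pt e q.2‖ := by
    unfold val
    rw [h1]
    split_ifs
    · rw [← norm_neg]; congr 1; abel
    · rfl
  apply max_le
  · rw [h3]; exact h2
  · have h4 := rr_pos p.2 j
    unfold ud
    rw [if_pos h1]
    split_ifs with h5
    · linarith
    · have h6 : j ≤ PiNat.firstDiff p.2 q.2 := by
        by_contra hcon
        push Not at hcon
        exact PiNat.apply_firstDiff_ne h5 (h _ hcon)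
      have := rr_anti p.2 h6
      linarith

omit he in
lemma firstDiff_large {p q : Pt e} {j : ℕ} (h : dist p q < rr p.2 j) :
    p.1 = q.1 ∧ ∀ i ≤ j, p.2 i = q.2 i := by
  have h1 := lt_of_le_of_lt (ud_le_dist p q) h
  have h2 := rr_le_one p.2 j
  unfold ud at h1
  split_ifs at h1 with h3 h4
  · exact ⟨h3, fun i _ => by rw [h4]⟩
  · refine ⟨h3, fun i hi => ?_⟩
    apply PiNat.apply_eq_of_lt_firstDiff
    by_contra hcon
    push Not at hcon
    have := rr_anti p.2 (hcon.trans hi)
    linarith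
  · linarith

lemma complete_Pt : CompleteSpace (Pt e) := by
  apply Metric.complete_of_cauchySeq_tendsto
  intro u hu
  rw [Metric.cauchySeq_iff] at hu
  -- for every `j` the sequence is eventually constant up to `j`
  have key : ∀ j, ∃ N, ∀ n ≥ N, (u n).1 = (u N).1 ∧ ∀ i < j, (u n).2 i = (u N).2 i := by
    intro j
    induction j with
    | zero =>
      obtain ⟨N, hN⟩ := hu 1 one_pos
      refine ⟨N, fun n hn => ⟨?_, fun i hi => absurd hi (Nat.not_lt_zero i)⟩⟩
      have h1 := hN N le_rfl n hn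
      have h2 : dist (u N) (u n) < rr (u N).2 0 := by rw [rr_zero]; exact h1
      exact (firstDiff_large h2).1.symm
    | succ j ih =>
      obtain ⟨N₁, hN₁⟩ := ih
      obtain ⟨N₂, hN₂⟩ := hu (rr (u N₁).2 j) (rr_pos _ _)
      refine ⟨max N₁ N₂, fun n hn => ?_⟩
      have hn1 : N₁ ≤ n := (le_max_left _ _).trans hn
      have hn2 : N₂ ≤ n := (le_max_right _ _).trans hn
      have e1 : rr (u (max N₁ N₂)).2 j = rr (u N₁).2 j :=
        rr_congr (fun i hi => (hN₁ _ (le_max_left _ _)).2 i hi)
      have h1 := hN₂ (max N₁ N₂) (le_max_right _ _) n hn2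
      rw [← e1] at h1
      obtain ⟨h2, h3⟩ := firstDiff_large h1
      exact ⟨h2.symm, fun i hi => (h3 i (Nat.lt_succ_iff.1 hi)).symm⟩
  choose N hN using key
  let k : ℕ → ℕ := fun j => (u (N (j+1))).2 j
  have hk : ∀ j, ∀ n ≥ N j, ∀ i < j, (u n).2 i = k i := by
    intro j n hn i hi
    have h1 := (hN j n hn).2 i hi
    have h2 := (hN j (max (N j) (N (i+1))) (le_max_left _ _)).2 i hi
    have h3 := (hN (i+1) (max (N j) (N (i+1))) (le_max_right _ _)).2 i (Nat.lt_succ_self i)
    change _ = (u (N (i+1))).2 i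
    rw [h1, ← h2, h3]
  let z : Pt e := ((u (N 0)).1, k)
  refine ⟨z, ?_⟩
  rw [Metric.tendsto_atTop]
  intro ε hε
  obtain ⟨j, hj⟩ := exists_pow_lt_of_lt_one (show 0 < ε / 4 by positivity)
    (show (1/4 : ℝ) < 1 by norm_num)
  refine ⟨max (N 0) (N j), fun n hn => ?_⟩
  have h1 : z.1 = (u n).1 := ((hN 0 n ((le_max_left _ _).trans hn)).1).symm
  have h2 : ∀ i < j, z.2 i = (u n).2 i := fun i hi =>
    (hk j n ((le_max_right _ _).trans hn) i hi).symm
  have h3 := dist_le_of_agree he h1 h2
  have h4 := rr_le z.2 j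
  rw [dist_comm]
  linarith

end

/-- finitely many finite sequences have a cylinder of size at least `δ` -/
lemma finite_large (J : ℕ) (δ : ℝ) (hδ : 0 < δ) :
    {s : Fin J → ℕ | δ ≤ ∏ i, (1/4 : ℝ) * (1/2 : ℝ) ^ (s i)}.Finite := by
  obtain ⟨n, hn⟩ := exists_pow_lt_of_lt_one hδ (show (1/2 : ℝ) < 1 by norm_num)
  apply (Set.finite_Iic (fun _ : Fin J => n)).subset
  intro s hs
  rw [mem_Iic]
  intro i
  by_contra hcon
  push Not at hcon
  have hs' : δ ≤ ∏ i, (1/4 : ℝ) * (1/2 : ℝ) ^ (s i) := hs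
  have h1 : ∏ j, (1/4 : ℝ) * (1/2 : ℝ) ^ (s j) ≤ (1/2 : ℝ) ^ (s i) := by
    rw [← Finset.mul_prod_erase Finset.univ _ (Finset.mem_univ i)]
    have h2 : ∏ j ∈ Finset.univ.erase i, (1/4 : ℝ) * (1/2 : ℝ) ^ (s j) ≤ 1 := by
      apply Finset.prod_le_one
      · intro j _; positivity
      · intro j _
        have := step_le (s j)
        linarith
    have h3 : (1/4 : ℝ) * (1/2 : ℝ) ^ (s i) ≤ (1/2 : ℝ) ^ (s i) := by
      have : (0:ℝ) < (1/2 : ℝ) ^ (s i) := by positivity
      linarith
    calc (1/4 : ℝ) * (1/2 : ℝ) ^ (s i) * ∏ j ∈ Finset.univ.erase i, (1/4 : ℝ) * (1/2 : ℝ) ^ (s j)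
        ≤ (1/4 : ℝ) * (1/2 : ℝ) ^ (s i) * 1 := by gcongr
      _ ≤ _ := by rw [mul_one]; exact h3
  have h2 : (1/2 : ℝ) ^ (s i) ≤ (1/2 : ℝ) ^ n :=
    pow_le_pow_of_le_one (by norm_num) (by norm_num) hcon.le
  linarith

/-- the small ball property -/
def SmallBall (M : Type*) [MetricSpace M] : Prop :=
  ∀ ε : ℝ, 0 < ε → ∃ (x : ℕ → M) (r : ℕ → ℝ), (∀ n, 0 < r n ∧ r n < ε) ∧
    Tendsto r atTop (𝓝 0) ∧ ⋃ n, closedBall (x n) (r n) = univ

theorem smallBall_Pt {e : ℕ → E} (he : ∀ n, ‖e n‖ ≤ 1) : SmallBall (Pt e) := by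
  intro ε hε
  obtain ⟨J₀, hJ₀⟩ := exists_pow_lt_of_lt_one (show 0 < ε / 4 by positivity)
    (show (1/4 : ℝ) < 1 by norm_num)
  set J := J₀ + 1 with hJ
  have hJ' : (1/4 : ℝ) ^ J < ε / 4 := by
    refine lt_of_le_of_lt ?_ hJ₀
    exact pow_le_pow_of_le_one (by norm_num) (by norm_num) (Nat.le_succ _)
  -- index set: finite sequences and a bit
  let I := Bool × (Fin J → ℕ)
  haveI : Infinite (Fin J → ℕ) := by
    refine Infinite.of_injective (fun (n : ℕ) (_ : Fin J) => n) ?_
    intro a b hab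
    exact congrFun hab ⟨0, Nat.succ_pos _⟩
  haveI : Infinite I := Prod.infinite_of_right
  haveI : Countable I := inferInstance
  obtain ⟨φ⟩ : Nonempty (ℕ ≃ I) := by
    haveI := Encodable.ofCountable I
    haveI := Denumerable.ofEncodableOfInfinite I
    exact ⟨(Denumerable.eqv I).symm⟩
  let ext : (Fin J → ℕ) → (ℕ → ℕ) := fun s i => if h : i < J then s ⟨i, h⟩ else 0
  have hext : ∀ s, rr (ext s) J = ∏ i, (1/4 : ℝ) * (1/2 : ℝ) ^ (s i) := by
    intro s
    unfold rr
    rw [Finset.prod_range]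
    apply Finset.prod_congr rfl
    intro i _
    simp [ext, i.2]
  refine ⟨fun n => Pt.mk e (φ n).1 (ext (φ n).2), fun n => 4 * rr (ext (φ n).2) J, ?_, ?_, ?_⟩
  · intro n
    have h1 := rr_pos (ext (φ n).2) J
    have h2 := rr_le (ext (φ n).2) J
    constructor <;> linarith
  · rw [Metric.tendsto_atTop]
    intro δ hδ
    have h1 : {p : I | δ / 4 ≤ ∏ i, (1/4 : ℝ) * (1/2 : ℝ) ^ (p.2 i)}.Finite := by
      have h2 := finite_large J (δ / 4) (by positivity)
      exact ((Set.finite_univ (α := Bool)).prod h2).subset (fun p hp => ⟨mem_univ _, hp⟩)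
    have h2 : (φ ⁻¹' {p : I | δ / 4 ≤ ∏ i, (1/4 : ℝ) * (1/2 : ℝ) ^ (p.2 i)}).Finite :=
      h1.preimage φ.injective.injOn
    obtain ⟨N, hN⟩ := h2.bddAbove
    refine ⟨N + 1, fun n hn => ?_⟩
    rw [Real.dist_eq, sub_zero, abs_of_pos (by have := rr_pos (ext (φ n).2) J; positivity), hext]
    by_contra hcon
    push Not at hcon
    have h3 : n ∈ φ ⁻¹' {p : I | δ / 4 ≤ ∏ i, (1/4 : ℝ) * (1/2 : ℝ) ^ (p.2 i)} := by
      change δ / 4 ≤ ∏ i, (1/4 : ℝ) * (1/2 : ℝ) ^ ((φ n).2 i)
      linarith
    have := hN h3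
    omega
  · rw [eq_univ_iff_forall]
    intro p
    rw [mem_iUnion]
    obtain ⟨n, hn⟩ := φ.surjective (p.1, fun i : Fin J => p.2 i)
    refine ⟨n, ?_⟩
    rw [mem_closedBall, dist_comm]
    have h1 : (Pt.mk e (φ n).1 (ext (φ n).2)).1 = p.1 := by
      change (φ n).1 = p.1
      rw [hn]
    have h2 : ∀ i < J, (Pt.mk e (φ n).1 (ext (φ n).2)).2 i = p.2 i := by
      intro i hi
      change ext (φ n).2 i = p.2 i
      rw [hn]
      simp [ext, hi]
    exact dist_le_of_agree he h1 h2

/-- The set of differences of values at distance one contains the unit ball. -/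
theorem exists_pair {e : ℕ → E} (he : ∀ n, ‖e n‖ ≤ 1)
    (hd : ∀ v : E, ‖v‖ ≤ 1 → ∀ δ : ℝ, 0 < δ → ∃ n, ‖v - e n‖ ≤ δ) (h : E) (hh : ‖h‖ ≤ 1) :
    ∃ p q : Pt e, val e p - val e q = h ∧ dist p q = 1 := by
  obtain ⟨k, l, hkl⟩ := exists_sum e he hd h hh
  have h1 : val e (Pt.mk e false k) - val e (Pt.mk e true l) = h := by
    unfold val Pt.mk
    simp [hkl]
  refine ⟨Pt.mk e false k, Pt.mk e true l, h1, ?_⟩
  rw [dist_pt]
  have h2 : ud (Pt.mk e false k) (Pt.mk e true l) = 1 := by
    unfold ud Pt.mk; simp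
  rw [h1, h2, max_eq_right hh]

end Pool.Agent.R277.Sbp
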